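import Pool.Agent.Helper65.SD.NL
import Pool.Agent.Helper16.SD.GoalsE

/-!
# Project SD, packet B_CNJ
-/

set_option autoImplicit false

namespace Pool.Agent.Helper65.SD.B_CNJ

open Polynomial Pool.Agent.Helper65.SD

/-- the degree of a primitive `p^s`-th root of unity over `ℚ_p(ζ)` -/
lemma minpoly_eq {p : ℕ} [hp : Fact p.Prime] {m : ℕ} (h0 : 0 < m) (hm : m.Coprime p) {ζ : ℂ_[p]}
    (hζ : ζ ^ m = 1) {n : ℕ} {ξ : ℂ_[p]} (hξ : IsPrimitiveRoot ξ (p ^ (n + 1))) :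
    minpoly (IntermediateField.adjoin ℚ_[p] {ζ}) ξ =
      cyclotomic (p ^ (n + 1)) (IntermediateField.adjoin ℚ_[p] {ζ}) := by
  classical
  have hpos : 0 < p ^ (n + 1) := pow_pos hp.out.pos _
  obtain ⟨L, hL⟩ : ∃ L, L = IntermediateField.adjoin ℚ_[p] {ζ} := ⟨_, rfl⟩
  rw [← hL]
  have hroot : aeval ξ (cyclotomic (p ^ (n + 1)) L) = 0 := by
    rw [aeval_def, ← eval_map, map_cyclotomic]
    exact hξ.isRoot_cyclotomic hpos
  have hint : IsIntegral L ξ := ⟨_, cyclotomic.monic _ _, by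
    rw [← aeval_def]; exact hroot⟩
  have hmon := minpoly.monic hint
  have hdvd : minpoly L ξ ∣ cyclotomic (p ^ (n + 1)) L := minpoly.dvd _ _ hroot
  have hle : (minpoly L ξ).natDegree ≤ Nat.totient (p ^ (n + 1)) := by
    rw [← natDegree_cyclotomic (p ^ (n + 1)) L]
    exact natDegree_le_of_dvd hdvd (cyclotomic_ne_zero _ _)
  have hpD : 0 < (minpoly L ξ).natDegree := minpoly.natDegree_pos hint
  -- the value at `1`
  obtain ⟨H, hH⟩ : ∃ H, H = (minpoly L ξ).map (algebraMap L ℂ_[p]) := ⟨_, rfl⟩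
  have hHmon : H.Monic := hH ▸ hmon.map _
  have hHdeg : H.natDegree = (minpoly L ξ).natDegree := by
    rw [hH, hmon.natDegree_map]
  have hHs : H.Splits := IsAlgClosed.splits H
  have h1 : ‖H.eval 1‖ = ‖1 - ξ‖ ^ (minpoly L ξ).natDegree := by
    rw [hHs.eval_eq_prod_roots_of_monic hHmon, ← hHdeg, hHs.natDegree_eq_card_roots]
    have h2 : ∀ r ∈ H.roots, ‖1 - r‖ = ‖1 - ξ‖ := by
      intro r hr
      rw [mem_roots hHmon.ne_zero] at hr
      have h3 : (cyclotomic (p ^ (n + 1)) ℂ_[p]).IsRoot r := by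
        obtain ⟨q, hq⟩ := hdvd
        have h4 := congrArg (Polynomial.map (algebraMap L ℂ_[p])) hq
        rw [map_cyclotomic, Polynomial.map_mul, ← hH] at h4
        rw [h4, IsRoot, eval_mul, hr.eq_zero, zero_mul]
      have hnz : NeZero ((p ^ (n + 1) : ℕ) : ℂ_[p]) := ⟨by exact_mod_cast hpos.ne'⟩
      have h5 : IsPrimitiveRoot r (p ^ (n + 1)) := isRoot_cyclotomic_iff.1 h3
      exact Pool.Agent.Helper77.TH.norm_same hpos hξ h5
    have h6 : ∀ S : Multiset ℂ_[p], (∀ r ∈ S, ‖1 - r‖ = ‖1 - ξ‖) →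
        ‖(S.map fun r => 1 - r).prod‖ = ‖1 - ξ‖ ^ S.card := by
      intro S
      induction S using Multiset.induction_on with
      | empty => intro _; simp
      | cons a S ih =>
        intro hS
        rw [Multiset.map_cons, Multiset.prod_cons, norm_mul, hS a (Multiset.mem_cons_self a S),
          ih fun r hr => hS r (Multiset.mem_cons_of_mem hr), Multiset.card_cons, pow_succ']
    exact h6 _ h2
  have h2 : ‖H.eval 1‖ ^ Nat.totient (p ^ (n + 1)) = ((p : ℝ)⁻¹) ^ (minpoly L ξ).natDegree := by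
    rw [h1, ← pow_mul, mul_comm, pow_mul, Pool.Agent.Helper77.TH.norm_pow_tot hξ]
  have h3 : H.eval 1 = algebraMap L ℂ_[p] ((minpoly L ξ).eval 1) := by
    rw [hH, eval_map, eval₂_at_one]
  have hp0 : (0 : ℝ) < p := by exact_mod_cast hp.out.pos
  have hne : H.eval 1 ≠ 0 := by
    intro h
    rw [h, norm_zero, zero_pow (Nat.totient_pos.2 hpos).ne'] at h2
    have : (0 : ℝ) < ((p : ℝ)⁻¹) ^ (minpoly L ξ).natDegree := by positivity
    linarith
  obtain ⟨k, hk⟩ := norm_L h0 hm hζ (H.eval 1) (by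
    rw [h3, ← hL]
    exact ((minpoly L ξ).eval 1).2) hne
  rw [hk, ← zpow_natCast, ← zpow_mul, inv_pow, ← zpow_natCast, ← zpow_neg] at h2
  have hp1 : (p : ℝ) ≠ 1 := by exact_mod_cast hp.out.one_lt.ne'
  have h4 := (zpow_right_inj₀ hp0 hp1).1 h2
  have h5 : Nat.totient (p ^ (n + 1)) ∣ (minpoly L ξ).natDegree := by
    have : (Nat.totient (p ^ (n + 1)) : ℤ) ∣ ((minpoly L ξ).natDegree : ℤ) :=
      ⟨-k, by linarith [h4]⟩
    exact_mod_cast this
  have h6 : (minpoly L ξ).natDegree = Nat.totient (p ^ (n + 1)) :=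
    le_antisymm hle (Nat.le_of_dvd hpD h5)
  refine (Polynomial.eq_of_monic_of_dvd_of_natDegree_le hmon (cyclotomic.monic _ _) hdvd ?_).symm
  rw [natDegree_cyclotomic, h6]

theorem t : Pool.Agent.Helper16.SD.B_CNJ := by
  intro p hp m s h0 hm ζ ξ ξ' hζ hξ hξ'
  rcases Nat.eq_zero_or_pos s with rfl | hs
  · rw [pow_zero, IsPrimitiveRoot.one_right_iff] at hξ hξ'
    exact ⟨AlgEquiv.refl, rfl, by rw [hξ, hξ']; rfl⟩
  · obtain ⟨n, rfl⟩ : ∃ n, s = n + 1 := ⟨s - 1, by omega⟩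
    have hpos : 0 < p ^ (n + 1) := pow_pos hp.out.pos _
    have h1 := minpoly_eq h0 hm hζ hξ
    have hint : IsIntegral (IntermediateField.adjoin ℚ_[p] {ζ}) ξ := ⟨_, cyclotomic.monic _ _, by
      rw [← eval_map, map_cyclotomic]
      exact hξ.isRoot_cyclotomic hpos⟩
    obtain ⟨σ, hσ⟩ := ext_aut (k := IntermediateField.adjoin ℚ_[p] {ζ}) (a := ξ) (b := ξ') hint (by
      rw [h1, aeval_def, ← eval_map, map_cyclotomic]
      exact hξ'.isRoot_cyclotomic hpos)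
    refine ⟨σ.restrictScalars ℚ_[p], ?_, hσ⟩
    exact σ.commutes ⟨ζ, IntermediateField.mem_adjoin_simple_self _ _⟩

end Pool.Agent.Helper65.SD.B_CNJ
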