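import Pool.Agent.Helper45.SD.Goals

set_option autoImplicit false

/-! Packet CNT for MP_9415b6_co: `G_CNT`. -/

open Finset

namespace Pool.Agent.Helper65.SD

open Pool.Agent.Helper45.SD

theorem mu_sum (n : ℕ) :
    ∑ d ∈ n.divisors, ArithmeticFunction.moebius d = if n = 1 then 1 else 0 := by
  have h := congrArg (fun f : ArithmeticFunction ℤ => f n)
    ArithmeticFunction.moebius_mul_coe_zeta
  simp only [ArithmeticFunction.coe_mul_zeta_apply, ArithmeticFunction.one_apply] at h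
  exact h

theorem cop_count (u N : ℕ) (hu : 0 < u) :
    (((((Finset.Icc 1 N).filter (fun i => Nat.Coprime u i)).card : ℕ)) : ℤ) =
      ∑ d ∈ u.divisors, ArithmeticFunction.moebius d * ((N / d : ℕ) : ℤ) := by
  have h1 : ∀ i ∈ Finset.Icc 1 N, (if Nat.Coprime u i then (1 : ℤ) else 0) =
      ∑ d ∈ u.divisors, if d ∣ i then ArithmeticFunction.moebius d else 0 := by
    intro i hi
    rw [← Finset.sum_filter]
    have h2 : u.divisors.filter (fun d => d ∣ i) = (u.gcd i).divisors := by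
      ext d
      rw [Finset.mem_filter, Nat.mem_divisors, Nat.mem_divisors, Nat.dvd_gcd_iff]
      constructor
      · rintro ⟨⟨ha, _⟩, hb⟩
        exact ⟨⟨ha, hb⟩, Nat.gcd_ne_zero_left hu.ne'⟩
      · rintro ⟨⟨ha, hb⟩, _⟩
        exact ⟨⟨ha, hu.ne'⟩, hb⟩
    rw [h2, mu_sum]
  rw [Finset.card_filter]
  push_cast
  rw [Finset.sum_congr rfl h1, Finset.sum_comm]
  refine Finset.sum_congr rfl fun d _ => ?_
  rw [← Finset.sum_filter, Finset.sum_const, nsmul_eq_mul, mul_comm]
  congr 2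
  exact Nat.Ioc_filter_dvd_card_eq_div N d

theorem pair (u p : ℕ) (hp : p.Prime) (hu : 0 < u) (hpu : p ∣ u) (F : ℕ → ℤ) :
    ∑ d ∈ u.divisors, ArithmeticFunction.moebius d * F d =
      ∑ d ∈ u.divisors.filter (fun d => ¬ p ∣ d),
        ArithmeticFunction.moebius d * (F d - F (p * d)) := by
  rw [← Finset.sum_filter_add_sum_filter_not u.divisors (fun d => p ∣ d)]
  have h1 : ∑ d ∈ u.divisors.filter (fun d => ¬ p ∣ d),
      (- (ArithmeticFunction.moebius d * F (p * d))) =
      ∑ d ∈ u.divisors.filter (fun d => p ∣ d), ArithmeticFunction.moebius d * F d := by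
    refine Finset.sum_of_injOn (fun d => p * d) ?_ ?_ ?_ ?_
    · intro a _ b _ h
      exact Nat.eq_of_mul_eq_mul_left hp.pos h
    · intro d hd
      simp only [Finset.coe_filter, Set.mem_ofPred_eq] at hd ⊢
      rw [Nat.mem_divisors] at hd ⊢
      exact ⟨⟨Nat.Coprime.mul_dvd_of_dvd_of_dvd ((Nat.Prime.coprime_iff_not_dvd hp).mpr hd.2)
        hpu hd.1.1, hu.ne'⟩, Nat.dvd_mul_right _ _⟩
    · intro d hd hd2
      rw [Finset.mem_filter, Nat.mem_divisors] at hd
      obtain ⟨⟨hdu, _⟩, e, rfl⟩ := hd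
      have hpe : p ∣ e := by
        by_contra hpe
        apply hd2
        refine ⟨e, ?_, rfl⟩
        simp only [Finset.coe_filter, Set.mem_ofPred_eq]
        rw [Nat.mem_divisors]
        exact ⟨⟨(Nat.dvd_mul_left _ _).trans hdu, hu.ne'⟩, hpe⟩
      obtain ⟨f, rfl⟩ := hpe
      rw [ArithmeticFunction.moebius_eq_zero_of_not_squarefree, zero_mul]
      intro hsq
      have := hsq p ⟨f, by ring⟩
      exact hp.one_lt.ne' (Nat.isUnit_iff.mp this)
    · intro d hd
      rw [Finset.mem_filter] at hd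
      have : ArithmeticFunction.moebius (p * d) = - ArithmeticFunction.moebius d := by
        rw [ArithmeticFunction.isMultiplicative_moebius.map_mul_of_coprime
          ((Nat.Prime.coprime_iff_not_dvd hp).mpr hd.2), ArithmeticFunction.moebius_apply_prime hp]
        ring
      simp only [this]
      ring
  rw [← h1, ← Finset.sum_add_distrib]
  refine Finset.sum_congr rfl fun d _ => ?_
  ring

theorem nu_eq (c u X : ℕ) (hc : 0 < c) (hu : 0 < u) :
    Nu (c * u) u X = ((Finset.Icc 1 (X / c)).filter (fun i => Nat.Coprime u i)).card := by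
  unfold Nu
  symm
  refine Finset.card_nbij' (fun i => c * i) (fun j => j / c) ?_ ?_ ?_ ?_
  · intro i hi
    simp only [Finset.coe_filter, Set.mem_ofPred_eq, Finset.mem_Icc] at hi ⊢
    obtain ⟨⟨h1, h2⟩, h3⟩ := hi
    have h4 : i * c ≤ X := (Nat.le_div_iff_mul_le hc).mp h2
    refine ⟨⟨Nat.mul_pos hc h1, by rw [mul_comm]; exact h4⟩, ?_⟩
    rw [Nat.gcd_mul_left, h3, mul_one, Nat.mul_div_cancel_left _ hc]
  · intro j hj
    simp only [Finset.coe_filter, Set.mem_ofPred_eq, Finset.mem_Icc] at hj ⊢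
    obtain ⟨⟨h1, h2⟩, h3⟩ := hj
    have hg : Nat.gcd (c * u) j = c := by
      have h5 := Nat.div_mul_cancel (Nat.gcd_dvd_left (c * u) j)
      rw [h3, mul_comm c u] at h5
      rw [mul_comm c u]
      exact Nat.eq_of_mul_eq_mul_left hu h5
    have hcj : c ∣ j := by
      have := Nat.gcd_dvd_right (c * u) j
      rwa [hg] at this
    obtain ⟨i, rfl⟩ := hcj
    rw [Nat.mul_div_cancel_left _ hc]
    rw [Nat.gcd_mul_left] at hg
    have h6 : Nat.gcd u i = 1 := by
      have : c * Nat.gcd u i = c * 1 := by rw [hg, mul_one]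
      exact Nat.eq_of_mul_eq_mul_left hc this
    refine ⟨⟨?_, ?_⟩, h6⟩
    · rcases Nat.eq_zero_or_pos i with h | h
      · subst h; simp at h1
      · exact h
    · rw [Nat.le_div_iff_mul_le hc, mul_comm]; exact h2
  · intro i _
    exact Nat.mul_div_cancel_left _ hc
  · intro j hj
    simp only [Finset.coe_filter, Set.mem_ofPred_eq, Finset.mem_Icc] at hj
    obtain ⟨⟨h1, h2⟩, h3⟩ := hj
    have hg : Nat.gcd (c * u) j = c := by
      have h5 := Nat.div_mul_cancel (Nat.gcd_dvd_left (c * u) j)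
      rw [h3, mul_comm c u] at h5
      rw [mul_comm c u]
      exact Nat.eq_of_mul_eq_mul_left hu h5
    have hcj : c ∣ j := by
      have := Nat.gcd_dvd_right (c * u) j
      rwa [hg] at this
    exact Nat.mul_div_cancel' hcj

theorem floor_diff (p w b X h A : ℕ) (hp : 2 ≤ p) (hw : 0 < w) (h1 : 1 ≤ h) (h2 : h + 2 ≤ p)
    (he : (p - 1) * X + h = p * w * b * A) : X / w = X / (p * w) + b * A := by
  obtain ⟨P, rfl⟩ : ∃ P, p = P + 1 := ⟨p - 1, by omega⟩
  rw [Nat.add_sub_cancel] at he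
  have hX := Nat.div_add_mod X ((P + 1) * w)
  set Y := X / ((P + 1) * w) with hY
  set r := X % ((P + 1) * w) with hr
  have hrlt : r < (P + 1) * w := Nat.mod_lt _ (by positivity)
  -- integers
  have e1 : (P : ℤ) * X + h = (P + 1) * w * b * A := by exact_mod_cast he
  have e2 : ((P : ℤ) + 1) * w * Y + r = X := by exact_mod_cast hX
  have e3 : (r : ℤ) < (P + 1) * w := by exact_mod_cast hrlt
  have hr0 : (0 : ℤ) ≤ r := by positivity
  have hh1 : (1 : ℤ) ≤ h := by exact_mod_cast h1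
  have hh2 : (h : ℤ) + 2 ≤ P + 1 := by exact_mod_cast h2
  -- t = w * (b A - P Y)
  have e4 : ((P : ℤ) + 1) * (w * (b * A - P * Y)) = P * r + h := by
    rw [← e2] at e1
    linear_combination -e1
  set t : ℤ := w * (b * A - P * Y) with ht
  have e5 : t ≤ r := by
    by_contra hlt
    have : (r : ℤ) + 1 ≤ t := by omega
    nlinarith
  have e6 : (r : ℤ) < t + w := by
    by_contra hlt
    have : t + w ≤ (r : ℤ) := by omega
    nlinarith
  have e7 : ((Y + b * A : ℕ) : ℤ) * w ≤ X := by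
    push_cast
    rw [← e2]
    rw [ht] at e5
    linarith [e5]
  have e8 : (X : ℤ) < ((Y + b * A + 1 : ℕ) : ℤ) * w := by
    push_cast
    rw [← e2]
    rw [ht] at e6
    linarith [e6]
  have e7' : (Y + b * A) * w ≤ X := by exact_mod_cast e7
  have e8' : X < (Y + b * A + 1) * w := by exact_mod_cast e8
  exact Nat.div_eq_of_lt_le e7' e8'

theorem tot_count (u : ℕ) (hu : 0 < u) : (Nat.totient u : ℤ) =
    ∑ d ∈ u.divisors, ArithmeticFunction.moebius d * ((u / d : ℕ) : ℤ) := by
  rw [← cop_count u u hu]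
  congr 1
  rw [← Nat.filter_coprime_Ico_eq_totient u 1]
  congr 2
  ext i
  rw [Finset.mem_Ico, Finset.mem_Icc]
  omega

theorem cnt : G_CNT := by
  intro p s u X h A hp hpu hus hs h1 h2 he
  obtain ⟨c, rfl⟩ := hus
  have hc : 0 < c := Nat.pos_of_ne_zero (by rintro rfl; simp at hs)
  have hu : 0 < u := Nat.pos_of_ne_zero (by rintro rfl; simp at hs)
  rw [mul_comm u c] at he ⊢
  rw [nu_eq c u X hc hu]
  have key1 : ((((Finset.Icc 1 (X / c)).filter (fun i => Nat.Coprime u i)).card : ℕ) : ℤ) =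
      A * ∑ d ∈ u.divisors.filter (fun d => ¬ p ∣ d),
        ArithmeticFunction.moebius d * ((u / (p * d) : ℕ) : ℤ) := by
    rw [cop_count u _ hu, pair u p hp hu hpu (fun d => ((X / c / d : ℕ) : ℤ)), Finset.mul_sum]
    refine Finset.sum_congr rfl fun d hd => ?_
    rw [Finset.mem_filter, Nat.mem_divisors] at hd
    obtain ⟨b, hb⟩ := Nat.Coprime.mul_dvd_of_dvd_of_dvd
      ((Nat.Prime.coprime_iff_not_dvd hp).mpr hd.2) hpu hd.1.1
    have hd0 : 0 < d := Nat.pos_of_dvd_of_pos hd.1.1 hu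
    have h3 := floor_diff p (c * d) b X h A hp.two_le (Nat.mul_pos hc hd0) h1 h2 (by
      rw [he, hb]; ring)
    have h4 : u / (p * d) = b := by
      rw [hb]; exact Nat.mul_div_cancel_left _ (Nat.mul_pos hp.pos hd0)
    have h5 : X / c / d = X / c / (p * d) + b * A := by
      rw [Nat.div_div_eq_div_mul, Nat.div_div_eq_div_mul, h3]
      congr 2
      ring
    simp only [h4, h5]
    push_cast
    ring
  have key2 : (Nat.totient u : ℤ) = ((p - 1 : ℕ) : ℤ) *
      ∑ d ∈ u.divisors.filter (fun d => ¬ p ∣ d),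
        ArithmeticFunction.moebius d * ((u / (p * d) : ℕ) : ℤ) := by
    rw [tot_count u hu, pair u p hp hu hpu (fun d => ((u / d : ℕ) : ℤ)), Finset.mul_sum]
    refine Finset.sum_congr rfl fun d hd => ?_
    rw [Finset.mem_filter, Nat.mem_divisors] at hd
    obtain ⟨b, hb⟩ := Nat.Coprime.mul_dvd_of_dvd_of_dvd
      ((Nat.Prime.coprime_iff_not_dvd hp).mpr hd.2) hpu hd.1.1
    have hd0 : 0 < d := Nat.pos_of_dvd_of_pos hd.1.1 hu
    have h4 : u / (p * d) = b := by
      rw [hb]; exact Nat.mul_div_cancel_left _ (Nat.mul_pos hp.pos hd0)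
    have h5 : u / d = p * b := by
      rw [hb, show p * d * b = d * (p * b) by ring]
      exact Nat.mul_div_cancel_left _ hd0
    simp only [h4, h5]
    have hp1 : ((p - 1 : ℕ) : ℤ) = p - 1 := by
      rw [Nat.cast_sub hp.one_lt.le, Nat.cast_one]
    rw [hp1]
    push_cast
    ring
  have : (((p - 1) * ((Finset.Icc 1 (X / c)).filter (fun i => Nat.Coprime u i)).card : ℕ) : ℤ) =
      ((Nat.totient u * A : ℕ) : ℤ) := by
    rw [Nat.cast_mul, key1, Nat.cast_mul, key2]
    ring
  exact_mod_cast this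

end Pool.Agent.Helper65.SD
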