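import Pool.Agent.Helper45.SD.Goals

set_option autoImplicit false

/-! Packet TR for MP_9415b6_co: `G_TR`, `G_NE`, `G_CPL`. -/

open Finset

namespace Pool.Agent.Helper65.SD

open Pool.Agent.Helper45.SD

/-- the embedding of the nonzero residues -/
def emb (n : ℕ) : {z : ZMod n // z ≠ 0} ↪ ZMod n := Function.Embedding.subtype _

/-- the embedding of families -/
def embF (n : ℕ) : Finset {z : ZMod n // z ≠ 0} ↪ Finset (ZMod n) :=
  ⟨fun T => T.map (emb n), Finset.map_injective (emb n)⟩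

theorem bl_eq (n : ℕ) [NeZero n] (k : ℕ) (x : ZMod n) :
    bl n k x = (blocksStar n k x).map (embF n) := by
  ext T
  rw [Finset.mem_map]
  constructor
  · intro hT
    unfold bl at hT
    rw [Finset.mem_filter, Finset.mem_powersetCard] at hT
    obtain ⟨⟨hsub, hc⟩, hs⟩ := hT
    have h0 : ∀ t ∈ T, t ≠ 0 := fun t ht => (Finset.mem_erase.mp (hsub ht)).1
    have hmap : (T.subtype (fun z => z ≠ 0)).map (emb n) = T :=
      Finset.subtype_map_of_mem h0
    refine ⟨T.subtype (fun z => z ≠ 0), ?_, hmap⟩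
    unfold blocksStar
    rw [Finset.mem_filter, Finset.mem_powersetCard]
    refine ⟨⟨Finset.subset_univ _, ?_⟩, ?_⟩
    · rw [← Finset.card_map (emb n), hmap, hc]
    · rw [← hs]
      conv_rhs => rw [← hmap]
      rw [Finset.sum_map]
      rfl
  · rintro ⟨S, hS, rfl⟩
    unfold blocksStar at hS
    rw [Finset.mem_filter, Finset.mem_powersetCard] at hS
    obtain ⟨⟨_, hc⟩, hs⟩ := hS
    unfold bl
    rw [Finset.mem_filter, Finset.mem_powersetCard]
    refine ⟨⟨?_, ?_⟩, ?_⟩
    · intro t ht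
      obtain ⟨s, _, rfl⟩ := Finset.mem_map.mp ht
      exact Finset.mem_erase.mpr ⟨s.2, Finset.mem_univ _⟩
    · change (S.map (emb n)).card = k
      rw [Finset.card_map, hc]
    · change ∑ t ∈ S.map (emb n), t = x
      rw [Finset.sum_map, ← hs]
      rfl

theorem deg_eq (n : ℕ) [NeZero n] (k : ℕ) (x : ZMod n) (y : {z : ZMod n // z ≠ 0}) :
    deg n k x y.val = ((blocksStar n k x).filter (fun T => y ∈ T)).card := by
  unfold deg
  rw [bl_eq, Finset.filter_map, Finset.card_map]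
  congr 1
  refine Finset.filter_congr fun S _ => ?_
  change (emb n) y ∈ S.map (emb n) ↔ y ∈ S
  exact Finset.mem_map' (emb n)

theorem tr : G_TR := by
  intro n _ k x
  unfold Pool.Agent.Helper51.SS.IsOneDesign Des
  rw [bl_eq, Finset.map_nonempty]
  refine and_congr_right fun _ => exists_congr fun r => ?_
  constructor
  · intro h y hy
    exact (deg_eq n k x ⟨y, hy⟩).trans (h ⟨y, hy⟩)
  · intro h y
    rw [← deg_eq]
    exact h y.val y.2

theorem ne : G_NE := by
  intro n _ k x hk hkn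
  obtain ⟨d, rfl⟩ : ∃ d, n = k + 3 + d := ⟨n - (k + 3), by omega⟩
  obtain ⟨e, rfl⟩ : ∃ e, k = 2 + e := ⟨k - 2, by omega⟩
  obtain ⟨L, hL, hs⟩ := Pool.Agent.Helper51.SS.exists_sum_mod (2 + e + 2 + d) (2 + e)
    (2 + e + 3 + d) (by omega) (by omega) (by
      have : 2 + e + 2 + d - (2 + e) = 2 + d := by omega
      rw [this]; nlinarith) x
  rw [Finset.mem_powersetCard] at hL
  have hinj : Set.InjOn (fun i : ℕ => (i : ZMod (2 + e + 3 + d))) (L : Set ℕ) := by
    intro a ha c hc hac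
    have h1 := Finset.mem_Ico.mp (hL.1 (Finset.mem_coe.mp ha))
    have h2 := Finset.mem_Ico.mp (hL.1 (Finset.mem_coe.mp hc))
    have h3 := (ZMod.natCast_eq_natCast_iff a c _).mp hac
    exact Nat.ModEq.eq_of_lt_of_lt h3 (by omega) (by omega)
  refine ⟨L.image (fun i : ℕ => (i : ZMod (2 + e + 3 + d))), ?_⟩
  unfold bl
  rw [Finset.mem_filter, Finset.mem_powersetCard]
  refine ⟨⟨?_, ?_⟩, ?_⟩
  · intro t ht
    obtain ⟨i, hi, rfl⟩ := Finset.mem_image.mp ht
    have h1 := Finset.mem_Ico.mp (hL.1 hi)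
    refine Finset.mem_erase.mpr ⟨?_, Finset.mem_univ _⟩
    intro h0
    have h2 := (ZMod.natCast_eq_zero_iff i _).mp h0
    have := Nat.le_of_dvd (by omega) h2
    omega
  · rw [Finset.card_image_of_injOn hinj, hL.2]
  · rw [Finset.sum_image hinj, ← hs]
    push_cast
    rfl

theorem sdiff_mem (n : ℕ) [NeZero n] (k : ℕ) (x : ZMod n) (T : Finset (ZMod n))
    (hT : T ∈ bl n k x) :
    (Finset.univ.erase (0 : ZMod n)) \ T ∈ bl n (n - 1 - k) ((∑ t : ZMod n, t) - x) := by
  unfold bl at hT ⊢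
  rw [Finset.mem_filter, Finset.mem_powersetCard] at hT ⊢
  obtain ⟨⟨hsub, hc⟩, hs⟩ := hT
  refine ⟨⟨Finset.sdiff_subset, ?_⟩, ?_⟩
  · rw [Finset.card_sdiff_of_subset hsub, hc, Finset.card_erase_of_mem (Finset.mem_univ _),
      Finset.card_univ, ZMod.card]
  · rw [eq_sub_iff_add_eq, ← hs, Finset.sum_sdiff hsub]
    exact Finset.sum_erase _ rfl

theorem cpl : G_CPL := by
  intro n _ k x hk hD
  obtain ⟨r, hr⟩ := hD
  refine ⟨(bl n k x).card - r, fun y hy => ?_⟩
  have hsub : ∀ k x, ∀ T ∈ bl n k x, T ⊆ Finset.univ.erase (0 : ZMod n) := by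
    intro k x T hT
    unfold bl at hT
    rw [Finset.mem_filter, Finset.mem_powersetCard] at hT
    exact hT.1.1
  have h1 : deg n (n - 1 - k) ((∑ t : ZMod n, t) - x) y =
      ((bl n k x).filter (fun T => y ∉ T)).card := by
    unfold deg
    refine Finset.card_nbij' (fun T => (Finset.univ.erase (0 : ZMod n)) \ T)
      (fun T => (Finset.univ.erase (0 : ZMod n)) \ T) ?_ ?_ ?_ ?_
    · intro T hT
      simp only [Finset.coe_filter, Set.mem_ofPred_eq] at hT ⊢
      refine ⟨?_, fun h => (Finset.mem_sdiff.mp h).2 hT.2⟩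
      have := sdiff_mem n _ _ _ hT.1
      rwa [Nat.sub_sub_self hk, sub_sub_cancel] at this
    · intro T hT
      simp only [Finset.coe_filter, Set.mem_ofPred_eq] at hT ⊢
      exact ⟨sdiff_mem n _ _ _ hT.1, Finset.mem_sdiff.mpr
        ⟨Finset.mem_erase.mpr ⟨hy, Finset.mem_univ _⟩, hT.2⟩⟩
    · intro T hT
      simp only [Finset.coe_filter, Set.mem_ofPred_eq] at hT
      exact Finset.sdiff_sdiff_eq_self (hsub _ _ _ hT.1)
    · intro T hT
      simp only [Finset.coe_filter, Set.mem_ofPred_eq] at hT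
      exact Finset.sdiff_sdiff_eq_self (hsub _ _ _ hT.1)
  rw [h1]
  have h2 := Finset.card_filter_add_card_filter_not (s := bl n k x) (fun T => y ∈ T)
  have h3 := hr y hy
  unfold deg at h3
  rw [h3] at h2
  omega

end Pool.Agent.Helper65.SD
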