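import Mathlib

/-!
# Extension of isomorphisms to an algebraically closed field
-/

set_option autoImplicit false

namespace Pool.Agent.Helper65.SD

open Polynomial

/-- Algebraically closed fields with transcendence bases of the same index type over `R` are isomorphic
over `R`. -/
theorem equivTB {R K L ι : Type} [Field R] [Field K] [Field L] [Algebra R K] [Algebra R L]
    [IsAlgClosed K] [IsAlgClosed L] (v : ι → K) (w : ι → L) (hv : IsTranscendenceBasis R v)
    (hw : IsTranscendenceBasis R w) :
    ∃ f : K ≃+* L, ∀ r : R, f (algebraMap R K r) = algebraMap R L r := by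
  let _ := IsAlgClosed.isAlgClosure_of_transcendence_basis v hv
  let _ := IsAlgClosed.isAlgClosure_of_transcendence_basis w hw
  obtain ⟨e⟩ : Nonempty (Algebra.adjoin R (Set.range v) ≃ₐ[R] Algebra.adjoin R (Set.range w)) :=
    ⟨hv.1.aevalEquiv.symm.trans hw.1.aevalEquiv⟩
  refine ⟨IsAlgClosure.equivOfEquiv K L e.toRingEquiv, fun r => ?_⟩
  have h1 : algebraMap R K r = algebraMap (Algebra.adjoin R (Set.range v)) K
      (algebraMap R (Algebra.adjoin R (Set.range v)) r) := rfl
  rw [h1, IsAlgClosure.equivOfEquiv_algebraMap]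
  have h2 : e.toRingEquiv (algebraMap R (Algebra.adjoin R (Set.range v)) r) =
      algebraMap R (Algebra.adjoin R (Set.range w)) r := e.commutes r
  rw [h2]
  rfl

/-- Conjugate elements are conjugate under an automorphism of the algebraically closed field. -/
theorem ext_aut {k E : Type} [Field k] [Field E] [Algebra k E] [IsAlgClosed E] {a b : E}
    (ha : IsIntegral k a) (h : aeval b (minpoly k a) = 0) :
    ∃ σ : E ≃ₐ[k] E, σ a = b := by
  obtain ⟨P, hP⟩ : ∃ P : k[X], P = minpoly k a := ⟨_, rfl⟩
  have hirr : Fact (Irreducible P) := ⟨hP ▸ minpoly.irreducible ha⟩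
  have ha' : aeval a P = 0 := by rw [hP]; exact minpoly.aeval k a
  have hb' : aeval b P = 0 := by rw [hP]; exact h
  let i : AdjoinRoot P →ₐ[k] E := AdjoinRoot.liftAlgHom P (Algebra.ofId k E) a ha'
  let j : AdjoinRoot P →ₐ[k] E := AdjoinRoot.liftAlgHom P (Algebra.ofId k E) b hb'
  have hia : i (AdjoinRoot.root P) = a := AdjoinRoot.liftAlgHom_root _ _ _ _
  have hjb : j (AdjoinRoot.root P) = b := AdjoinRoot.liftAlgHom_root _ _ _ _
  have hfin : Module.Finite k (AdjoinRoot P) := (AdjoinRoot.powerBasis hirr.out.ne_zero).finite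
  obtain ⟨ι, v, hv⟩ := exists_isTranscendenceBasis' k E
  -- the two structures
  have key : ∀ (f : AdjoinRoot P →ₐ[k] E),
      @IsTranscendenceBasis ι (AdjoinRoot P) E _ _ f.toRingHom.toAlgebra v := by
    intro f
    let _ : Algebra (AdjoinRoot P) E := f.toRingHom.toAlgebra
    have : IsScalarTower k (AdjoinRoot P) E := IsScalarTower.of_algebraMap_eq fun x =>
      (f.commutes x).symm
    exact (Algebra.IsAlgebraic.isTranscendenceBasis_iff (R := k) (S := AdjoinRoot P)).1 hv
  obtain ⟨f, hf⟩ := @equivTB (AdjoinRoot P) E E ι _ _ _ i.toRingHom.toAlgebra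
    j.toRingHom.toAlgebra _ _ v v (key i) (key j)
  have hf' : ∀ r, f (i r) = j r := hf
  refine ⟨AlgEquiv.ofRingEquiv (f := f) fun x => ?_, ?_⟩
  · have := hf' (algebraMap k _ x)
    rwa [i.commutes, j.commutes] at this
  · have := hf' (AdjoinRoot.root P)
    rwa [hia, hjb] at this

end Pool.Agent.Helper65.SD
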