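import Pool.Agent.Helper36.FY.NCNJ
import Pool.Agent.Helper77.TH.CNT
import Pool.Agent.Helper65.SD.EXTA

/-!
# The norms of the elements of `ℚ_p(ζ)`, `ζ` a root of unity of order prime to `p`
-/

set_option autoImplicit false

namespace Pool.Agent.Helper65.SD

open Polynomial Pool.Agent.Helper22.RP Pool.Agent.Helper51.RP

section

variable {p : ℕ} [hp : Fact p.Prime]

lemma norm_qp (q : ℚ_[p]) (hq : q ≠ 0) : ∃ k : ℤ, ‖algebraMap ℚ_[p] ℂ_[p] q‖ = (p : ℝ) ^ k := by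
  refine ⟨-q.valuation, ?_⟩
  rw [← Padic.norm_eq_zpow_neg_valuation hq]
  exact PadicComplex.norm_extends' p q

lemma norm_io (a : ℤ_[p]) : ‖io p ℂ_[p] a‖ = ‖a‖ := PadicComplex.norm_extends' p (a : ℚ_[p])

/-- a value of a polynomial over `ℚ_p` of small degree at `ζ` -/
lemma norm_small {m : ℕ} {ζ : ℂ_[p]} {Φ : ℤ_[p][X]} {P : (ZMod p)[X]} (D : PhiData p m ζ Φ P)
    (r : ℚ_[p][X]) (hr : r ≠ 0) (hdeg : r.natDegree < Φ.natDegree) :
    ∃ k : ℤ, ‖aeval ζ r‖ = (p : ℝ) ^ k := by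
  classical
  obtain ⟨i, hi, hmax⟩ := Finset.exists_max_image r.support (fun j => ‖r.coeff j‖)
    (Polynomial.support_nonempty.2 hr)
  have hc : r.coeff i ≠ 0 := Polynomial.mem_support_iff.1 hi
  have hcn : 0 < ‖r.coeff i‖ := norm_pos_iff.2 hc
  have hle : ∀ j, ‖r.coeff j‖ ≤ ‖r.coeff i‖ := by
    intro j
    by_cases hj : j ∈ r.support
    · exact hmax j hj
    · rw [Polynomial.notMem_support_iff.1 hj, norm_zero]
      exact hcn.le
  have hlift : C (r.coeff i)⁻¹ * r ∈ Polynomial.lifts (algebraMap ℤ_[p] ℚ_[p]) := by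
    rw [Polynomial.lifts_iff_coeff_lifts]
    intro j
    rw [coeff_C_mul]
    have h1 : ‖(r.coeff i)⁻¹ * r.coeff j‖ ≤ 1 := by
      rw [norm_mul, norm_inv, inv_mul_le_iff₀ hcn, mul_one]
      exact hle j
    exact ⟨⟨_, h1⟩, rfl⟩
  obtain ⟨r0, hr0⟩ := (Polynomial.mem_lifts _).1 hlift
  have hinj : Function.Injective (algebraMap ℤ_[p] ℚ_[p]) := IsFractionRing.injective _ _
  have hdeg0 : r0.natDegree = r.natDegree := by
    rw [← Polynomial.natDegree_map_eq_of_injective hinj, hr0,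
      Polynomial.natDegree_C_mul (inv_ne_zero hc)]
  have hco : r0.coeff i = 1 := by
    apply hinj
    rw [← Polynomial.coeff_map, hr0, coeff_C_mul, inv_mul_cancel₀ hc, map_one]
  have hval : aeval ζ r = algebraMap ℚ_[p] ℂ_[p] (r.coeff i) * eval₂ (io p ℂ_[p]) ζ r0 := by
    have h1 : aeval ζ (C (r.coeff i)⁻¹ * r) = eval₂ (io p ℂ_[p]) ζ r0 := by
      rw [← hr0, aeval_def, eval₂_map]
      rfl
    rw [← h1, map_mul, aeval_C, ← mul_assoc, ← map_mul, mul_inv_cancel₀ hc, map_one, one_mul]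
  have hone : ‖eval₂ (io p ℂ_[p]) ζ r0‖ = 1 := by
    refine le_antisymm (eval_le r0 (Pool.Agent.Helper36.FY.root_norm D).le 1 zero_le_one
      fun n => PadicInt.norm_le_one _) ?_
    by_contra hcon
    have h1 := Pool.Agent.Helper36.FY.k2 D r0 (not_le.1 hcon)
    have hPdeg : P.natDegree = Φ.natDegree := by
      rw [D.map, D.monic.natDegree_map]
    have h2 : r0.map (PadicInt.toZMod : ℤ_[p] →+* ZMod p) = 0 := by
      refine Polynomial.eq_zero_of_dvd_of_natDegree_lt h1 ?_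
      rw [hPdeg]
      exact (Polynomial.natDegree_map_le).trans_lt (hdeg0 ▸ hdeg)
    have h3 := congrArg (fun q => q.coeff i) h2
    simp only [coeff_map, hco, map_one, coeff_zero] at h3
    exact one_ne_zero h3
  obtain ⟨k, hk⟩ := norm_qp (r.coeff i) hc
  exact ⟨k, by rw [hval, norm_mul, hone, mul_one, hk]⟩

/-- the norms of the nonzero elements of `ℚ_p(ζ)` are powers of `p` -/
theorem norm_L {m : ℕ} (h0 : 0 < m) (hm : m.Coprime p) {ζ : ℂ_[p]} (hζ : ζ ^ m = 1)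
    (x : ℂ_[p]) (hx : x ∈ IntermediateField.adjoin ℚ_[p] {ζ}) (hx0 : x ≠ 0) :
    ∃ k : ℤ, ‖x‖ = (p : ℝ) ^ k := by
  have hint : IsIntegral ℚ_[p] ζ :=
    ⟨X ^ m - 1, monic_X_pow_sub_C (1 : ℚ_[p]) h0.ne', by
      rw [eval₂_sub, eval₂_pow, eval₂_X, eval₂_one, hζ, sub_self]⟩
  rw [← IntermediateField.mem_toSubalgebra,
    IntermediateField.adjoin_simple_toSubalgebra_of_isAlgebraic hint.isAlgebraic,
    Algebra.adjoin_singleton_eq_range_aeval] at hx
  obtain ⟨F, rfl⟩ := hx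
  rcases Nat.lt_or_ge 1 (orderOf ζ) with h1 | h1
  · have hdvd : orderOf ζ ∣ m := orderOf_dvd_of_pow_eq_one hζ
    obtain ⟨Φ, P, D⟩ := s_phi p ℂ_[p] (orderOf ζ) ζ (Nat.Coprime.coprime_dvd_left hdvd hm) h1
      (IsPrimitiveRoot.orderOf ζ)
    have hmon : (Φ.map (algebraMap ℤ_[p] ℚ_[p])).Monic := D.monic.map _
    have hroot : aeval ζ (Φ.map (algebraMap ℤ_[p] ℚ_[p])) = 0 := by
      rw [aeval_def, eval₂_map]
      exact D.root
    have hF : aeval ζ F = aeval ζ (F %ₘ (Φ.map (algebraMap ℤ_[p] ℚ_[p]))) :=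
      (Polynomial.aeval_modByMonic_eq_self_of_root hroot).symm
    have hne : F %ₘ (Φ.map (algebraMap ℤ_[p] ℚ_[p])) ≠ 0 := by
      intro h
      rw [h, map_zero] at hF
      exact hx0 hF
    have hΦ : Φ.natDegree ≠ 0 := by
      intro h
      have h2 : Φ = 1 := Polynomial.eq_one_of_monic_natDegree_zero D.monic h
      have h3 := D.root
      rw [h2, eval₂_one] at h3
      exact one_ne_zero h3
    have hd : (F %ₘ (Φ.map (algebraMap ℤ_[p] ℚ_[p]))).natDegree < Φ.natDegree := by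
      have h2 := Polynomial.natDegree_modByMonic_lt F hmon (by
        intro h
        have h3 := congrArg natDegree h
        rw [D.monic.natDegree_map, natDegree_one] at h3
        exact hΦ h3)
      rwa [D.monic.natDegree_map] at h2
    obtain ⟨k, hk⟩ := norm_small D _ hne hd
    refine ⟨k, ?_⟩
    change ‖aeval ζ F‖ = _
    rw [hF, hk]
  · have h2 : orderOf ζ = 1 := by
      have : 0 < orderOf ζ := orderOf_pos_iff.2 (isOfFinOrder_iff_pow_eq_one.2 ⟨m, h0, hζ⟩)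
      omega
    have h3 : ζ = 1 := orderOf_eq_one_iff.1 h2
    have h4 : aeval ζ F = algebraMap ℚ_[p] ℂ_[p] (F.eval 1) := by
      rw [h3, aeval_def, eval₂_at_one]
    have h5 : F.eval 1 ≠ 0 := by
      intro h
      apply hx0
      change aeval ζ F = 0
      rw [h4, h, map_zero]
    obtain ⟨k, hk⟩ := norm_qp _ h5
    refine ⟨k, ?_⟩
    change ‖aeval ζ F‖ = _
    rw [h4, hk]

end

end Pool.Agent.Helper65.SD
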