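import Pool.Agent.Helper71.SD.Goals

namespace Pool.Agent.Helper71.SD.SHF

open Pool.Agent.Helper71.AHtpy SimpleGraph

/-- auxiliary injection of the codes into a finite type -/
def code : C0 → Finset E ⊕ ((Fin 3 → Option (Finset E)) ⊕ (Fin 3 → Option (Finset E)))
  | .mid S => Sum.inl S
  | .lo f => Sum.inr (Sum.inl f)
  | .hi f => Sum.inr (Sum.inr f)

theorem code_inj : Function.Injective code := by
  intro y y' h
  cases y <;> cases y' <;> simp [code] at h <;> rw [h]

theorem finite_c0 : Finite C0 := Finite.of_injective code code_inj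

theorem tog_left_inj {a i : E} {S : Finset E} (h : tog a S = tog i S) : a = i := by
  by_contra hne
  have h1 := Finset.ext_iff.mp h a
  simp only [mem_tog] at h1
  by_cases ha : a ∈ S <;> simp [ha, hne] at h1

theorem clp_adj {z z' : Fin 60 → ℤ} (h : (grid (Fin 60)).Adj z z') :
    clp z = clp z' ∨ ∃ i, clp z' = tog i (clp z) ∧ ((z i = 0 ∧ z' i = 1) ∨ (z i = 1 ∧ z' i = 0)) ∧
      ∀ j, j ≠ i → z j = z' j := by
  obtain ⟨i, hi, hj⟩ := grid_adj_iff.mp h
  by_cases hc : (z i = 0 ∧ z' i = 1) ∨ (z i = 1 ∧ z' i = 0)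
  · right
    refine ⟨i, ?_, hc, hj⟩
    ext k
    simp only [clp, mem_tog, Finset.mem_filter, Finset.mem_univ, true_and]
    by_cases hk : k = i
    · subst hk
      rcases hc with ⟨h1, h2⟩ | ⟨h1, h2⟩ <;> simp [h1, h2]
    · rw [hj k hk]
      simp [hk]
  · left
    ext k
    simp only [clp, Finset.mem_filter, Finset.mem_univ, true_and]
    by_cases hk : k = i
    · subst hk
      omega
    · rw [hj k hk]

theorem shf : S_CONN → S_XC1 → S_XC2 → S_SHF := by
  intro _ hX1 hX2
  refine ⟨?_, ?_⟩
  · have := finite_c0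
    infer_instance
  intro V G A
  refine ⟨?_, ?_⟩
  · rintro p p' ⟨hne, z, z', hg, h1, h1', hn, hn', rfl, rfl⟩
    show Near G (A.b (xc (clp z))) (A.b (xc (clp z')))
    rcases clp_adj hg with hc | ⟨i, hc, -, -⟩
    · left; rw [hc]
    · by_cases hx : xc (clp z) = xc (clp z')
      · left; rw [hx]
      · right
        exact A.b_adj _ _ ⟨hx, clp z, clp z', ⟨i, hc⟩, hn, hn', rfl, rfl⟩
  · rintro ⟨q, hq, hadj⟩
    have key : ∀ S a, Core S → Core (tog a S) → (q S).2 a = 1 ∧
        ∃ z : Fin 60 → ℤ, pat z = (q S).2 ∧ 1 ≤ dd z := by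
      intro S a hS hT
      have h1 : (q S).1 = .mid S := A.b_inj (hq S hS)
      have h2 : (q (tog a S)).1 = .mid (tog a S) := A.b_inj (hq _ hT)
      rcases hadj S (tog a S) hS hT ⟨a, rfl⟩ with he | he
      · exfalso
        rw [he, h2] at h1
        exact tog_ne a S (C0.mid.inj h1)
      · obtain ⟨hne, z, z', hg, hd, hd', hn, hn', e1, e2⟩ := he
        have e3 : xc (clp z) = .mid S := by rw [← h1, ← e1]
        have e4 : xc (clp z') = .mid (tog a S) := by rw [← h2, ← e2]
        have e5 : clp z = S := ((hX2.2.1 _ _).mp e3).1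
        have e6 : clp z' = tog a S := ((hX2.2.1 _ _).mp e4).1
        rcases clp_adj hg with hc | ⟨i, hc, hv, hj⟩
        · exfalso
          rw [e5, e6] at hc
          exact tog_ne a S hc.symm
        · have hi : a = i := by
            rw [e5, e6] at hc
            exact tog_left_inj hc
          subst hi
          refine ⟨?_, z, by rw [← e1], hd⟩
          rw [← e1]
          show pat z a = 1
          unfold pat
          rcases hv with ⟨h3, -⟩ | ⟨h3, -⟩ <;> simp [h3]
    obtain ⟨S₀, -, hS₀⟩ : ∃ S₀ ⊆ (Finset.univ : Finset E), S₀.card = 30 :=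
      Finset.exists_subset_card_eq (by simp)
    have hc0 : Core S₀ := by constructor <;> omega
    have hct : ∀ a, Core (tog a S₀) := by
      intro a
      have h1 := hX1.2.2.2.2.2.2.2 a S₀
      by_cases ha : a ∈ S₀
      · have := h1.1 ha
        constructor <;> omega
      · have := h1.2 ha
        constructor <;> omega
    obtain ⟨-, z, hz, hd⟩ := key S₀ 0 hc0 (hct 0)
    have hall : ∀ i, pat z i = 1 := by
      intro i
      rw [hz]
      exact (key S₀ i hc0 (hct i)).1
    have hdd : dd z = 0 := by
      unfold dd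
      rw [← Nat.bot_eq_zero, Finset.sup_eq_bot_iff]
      intro i _
      have h1 := hall i
      unfold pat at h1
      have h2 : -1 < z i ∧ z i ≤ 1 := by
        split_ifs at h1 with h3 h4
        · exact absurd h1 (by decide)
        · exact ⟨by omega, h4⟩
        · exact absurd h1 (by decide)
      show (max (-z i) (z i - 1)).toNat = 0
      omega
    omega

end Pool.Agent.Helper71.SD.SHF
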